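import Pool.Agent.U479.VA.Point

set_option autoImplicit false

/-! Separation of points and tangent vectors. -/

namespace Pool.Agent.U479.VA

open Finset MvPolynomial Pool.Agent.U479.FJ

variable {V κ : Type} [Fintype V] [DecidableEq V] [Fintype κ] {F : Type} [Field F]

/-- the derivative of `s` at `v` in the direction `u` -/
noncomputable def dd (v u : V → F) (s : MvPolynomial V F) : F := ∑ i, eval v (pderiv i s) * u i

theorem dd_add (v u : V → F) (p q : MvPolynomial V F) : dd v u (p + q) = dd v u p + dd v u q := by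
  simp only [dd, map_add, add_mul, sum_add_distrib]

theorem dd_C (v u : V → F) (c : F) : dd v u (C c) = 0 := by
  simp [dd]

theorem dd_mul (v u : V → F) (p q : MvPolynomial V F) :
    dd v u (p * q) = dd v u p * eval v q + eval v p * dd v u q := by
  simp only [dd, Derivation.leibniz, smul_eq_mul, map_add, map_mul, sum_mul, mul_sum]
  rw [← sum_add_distrib]
  exact sum_congr rfl fun i _ => by ring

theorem dd_X (v u : V → F) (i : V) : dd v u (X i) = u i := by
  unfold dd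
  rw [sum_eq_single i]
  · simp
  · intro l _ hl
    rw [pderiv_X, Pi.single_eq_of_ne (Ne.symm hl)]
    simp
  · intro h; exact absurd (mem_univ i) h

theorem dd_sub (v u : V → F) (p q : MvPolynomial V F) : dd v u (p - q) = dd v u p - dd v u q := by
  simp only [dd, map_sub, sub_mul, sum_sub_distrib]

theorem dd_C_mul (v u : V → F) (c : F) (q : MvPolynomial V F) :
    dd v u (C c * q) = c * dd v u q := by
  rw [dd_mul, dd_C, zero_mul, zero_add, eval_C]

theorem aeval_dual (v u : V → F) (s : MvPolynomial V F) :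
    aeval (fun i => (TrivSqZeroExt.inl (v i) + TrivSqZeroExt.inr (u i) : TrivSqZeroExt F F)) s =
      TrivSqZeroExt.inl (eval v s) + TrivSqZeroExt.inr (dd v u s) := by
  induction s using MvPolynomial.induction_on with
  | C c =>
    rw [aeval_C, eval_C, dd_C, TrivSqZeroExt.inr_zero, add_zero]
    rfl
  | add p q hp hq =>
    rw [map_add, hp, hq, map_add, dd_add]
    ext <;> simp
  | mul_X p i hp =>
    rw [map_mul, hp, aeval_X, map_mul, eval_X, dd_mul, dd_X]
    ext
    · simp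
    · simp
      ring

/-- the sections are proportional -/
theorem prop_sections {a : V → ℕ} {e : ℕ} {v : V → F} (L : MvPolynomial V F → F)
    (hL : ∀ s t : MvPolynomial V F, L (s - t) = L s - L t)
    (hL' : ∀ (c : F) (s : MvPolynomial V F), L (C c * s) = c * L s)
    (hb : ∃ s : MvPolynomial V F, IsWeightedHomogeneous a s e ∧ eval v s ≠ 0)
    (hsec : ∀ s, IsWeightedHomogeneous a s e → eval v s = 0 → L s = 0) :
    ∃ c : F, ∀ s, IsWeightedHomogeneous a s e → L s = c * eval v s := by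
  obtain ⟨s0, h0, h1⟩ := hb
  refine ⟨L s0 / eval v s0, fun s hs => ?_⟩
  have h2 : IsWeightedHomogeneous a (s - C (eval v s / eval v s0) * s0) e := by
    have h3 : IsWeightedHomogeneous a (C (eval v s / eval v s0) * s0) e := by
      have := (isWeightedHomogeneous_C a (eval v s / eval v s0)).mul h0
      rwa [zero_add] at this
    exact (weightedHomogeneousSubmodule F a e).sub_mem hs h3
  have h3 := hsec _ h2 (by
    rw [map_sub, map_mul, eval_C, div_mul_cancel₀ _ h1, sub_self])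
  rw [hL, hL', sub_eq_zero] at h3
  rw [h3]
  field_simp

/-- the equations assigned to the weights, and the number `e` -/
structure Data (a : V → ℕ) (f : κ → MvPolynomial V F) (φ : V → MvPolynomial V F) (D : V → ℕ)
    (e : ℕ) : Prop where
  ha : ∀ i, 1 ≤ a i
  hcop : Pairwise fun i j => Nat.Coprime (a i) (a j)
  hD : ∀ i, 1 ≤ D i
  hφ : ∀ i, 1 < a i → IsWeightedHomogeneous a (φ i) (D i * a i)
  hcoef : ∀ i, 1 < a i → coeff (Finsupp.single i (D i)) (φ i) ≠ 0
  he : ∑ i, (D i - 1) * a i + 1 ≤ e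
  mem : ∀ i, 1 < a i → ∃ j, φ i = f j

theorem base {a : V → ℕ} {f : κ → MvPolynomial V F} {φ : V → MvPolynomial V F} {D : V → ℕ}
    {e : ℕ} (H : Data a f φ D e) (v : V → F) (hv : v ≠ 0) (hfv : ∀ j, eval v (f j) = 0) :
    ∃ s : MvPolynomial V F, IsWeightedHomogeneous a s e ∧ eval v s ≠ 0 := by
  classical
  obtain ⟨T, hTne, hTx, hG1, -, -⟩ := exists_good a H.ha H.hcop φ D H.hD H.hφ H.hcoef e H.he v hv
    (fun i hi => by obtain ⟨j, hj⟩ := H.mem i hi; rw [hj]; exact hfv j)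
  obtain ⟨i, hi⟩ := hTne
  obtain ⟨μ, -, h2⟩ := hG1 i hi
  obtain ⟨ν, hν⟩ : ∃ ν : V → ℕ, ν = fun l => if l ∈ T then μ l else 0 := ⟨_, rfl⟩
  have h3 : ∑ l, ν l * a l = e := by
    rw [← h2, ← sum_subset (subset_univ T)]
    · exact sum_congr rfl fun l hl => by rw [hν]; beta_reduce; rw [if_pos hl]
    · intro l _ hl
      rw [hν]; beta_reduce; rw [if_neg hl, zero_mul]
  refine ⟨monomial (Finsupp.equivFunOnFinite.symm ν) 1,
    isWeightedHomogeneous_monomial _ _ _ (by rw [weight_eq, ← h3]; rfl), ?_⟩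
  rw [eval_monomial, one_mul, Finsupp.prod_fintype _ _ (fun _ => pow_zero _)]
  refine prod_ne_zero_iff.2 fun l _ => ?_
  show v l ^ ν l ≠ 0
  rw [hν]
  beta_reduce
  by_cases hl : l ∈ T
  · exact pow_ne_zero _ (hTx l hl)
  · rw [if_neg hl, pow_zero]; exact one_ne_zero

theorem points {a : V → ℕ} {f : κ → MvPolynomial V F} {φ : V → MvPolynomial V F} {D : V → ℕ}
    {e : ℕ} (H : Data a f φ D e) (v w : V → F) (hv : v ≠ 0) (hw : w ≠ 0)
    (hfv : ∀ j, eval v (f j) = 0) (hfw : ∀ j, eval w (f j) = 0)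
    (hsec : ∀ s : MvPolynomial V F, IsWeightedHomogeneous a s e → eval v s = 0 → eval w s = 0) :
    ∃ t : F, t ≠ 0 ∧ ∀ i, w i = t ^ a i * v i := by
  obtain ⟨c, hc⟩ := prop_sections (a := a) (e := e) (v := v) (fun s => eval w s)
    (fun s t => map_sub _ _ _) (fun c s => by simp) (base H v hv hfv) hsec
  have hc0 : c ≠ 0 := by
    obtain ⟨s, hs, hs'⟩ := base H w hw hfw
    intro h
    apply hs'
    rw [hc s hs, h, zero_mul]
  obtain ⟨t, ht⟩ := core (B := F) a H.ha H.hcop φ D H.hD H.hφ H.hcoef e H.he v hv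
    (fun i hi => by obtain ⟨j, hj⟩ := H.mem i hi; rw [hj]; exact hfv j) w
    (fun i hi => by
      obtain ⟨j, hj⟩ := H.mem i hi
      rw [hj, MvPolynomial.aeval_eq_eval]
      exact hfw j) (Units.mk0 c hc0) (fun s hs => by
        rw [MvPolynomial.aeval_eq_eval]
        exact hc s hs)
  exact ⟨t, t.ne_zero, ht⟩

theorem tangents {a : V → ℕ} {f : κ → MvPolynomial V F} {φ : V → MvPolynomial V F} {D : V → ℕ}
    {e : ℕ} (H : Data a f φ D e) (v u : V → F) (hv : v ≠ 0)
    (hfv : ∀ j, eval v (f j) = 0) (hfu : ∀ j, dd v u (f j) = 0)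
    (hsec : ∀ s : MvPolynomial V F, IsWeightedHomogeneous a s e → eval v s = 0 → dd v u s = 0) :
    ∃ τ : F, ∀ i, u i = τ * (a i * v i) := by
  obtain ⟨c, hc⟩ := prop_sections (a := a) (e := e) (v := v) (fun s => dd v u s)
    (fun s t => dd_sub v u s t) (fun c s => dd_C_mul v u c s) (base H v hv hfv) hsec
  have hCu : IsUnit (TrivSqZeroExt.inl 1 + TrivSqZeroExt.inr c : TrivSqZeroExt F F) := by
    rw [TrivSqZeroExt.isUnit_iff_isUnit_fst]
    simp
  obtain ⟨C, hC⟩ := hCu
  obtain ⟨T, hT⟩ := core (B := TrivSqZeroExt F F) a H.ha H.hcop φ D H.hD H.hφ H.hcoef e H.he v hv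
    (fun i hi => by obtain ⟨j, hj⟩ := H.mem i hi; rw [hj]; exact hfv j)
    (fun i => TrivSqZeroExt.inl (v i) + TrivSqZeroExt.inr (u i))
    (fun i hi => by
      obtain ⟨j, hj⟩ := H.mem i hi
      rw [hj, aeval_dual, hfv, hfu, TrivSqZeroExt.inl_zero, TrivSqZeroExt.inr_zero, add_zero])
    C (fun s hs => by
      rw [aeval_dual, hc s hs, hC, TrivSqZeroExt.algebraMap_eq_inl]
      ext
      · simp
      · simp)
  have hT0 : (T : TrivSqZeroExt F F).fst ≠ 0 := by
    have := (TrivSqZeroExt.isUnit_iff_isUnit_fst.1 T.isUnit)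
    exact this.ne_zero
  set t0 := (T : TrivSqZeroExt F F).fst
  set t1 := (T : TrivSqZeroExt F F).snd
  refine ⟨t1 / t0, fun i => ?_⟩
  have h1 := congrArg TrivSqZeroExt.fst (hT i)
  have h2 := congrArg TrivSqZeroExt.snd (hT i)
  rw [TrivSqZeroExt.algebraMap_eq_inl] at h1 h2
  simp only [TrivSqZeroExt.fst_add, TrivSqZeroExt.fst_inl, TrivSqZeroExt.fst_inr, add_zero,
    TrivSqZeroExt.fst_mul, TrivSqZeroExt.fst_pow] at h1
  simp only [TrivSqZeroExt.snd_add, TrivSqZeroExt.snd_inl, TrivSqZeroExt.snd_inr, zero_add,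
    TrivSqZeroExt.snd_mul, TrivSqZeroExt.snd_pow, TrivSqZeroExt.fst_inl,
    MulOpposite.smul_eq_mul_unop, MulOpposite.unop_op, smul_eq_mul, nsmul_eq_mul] at h2
  rw [h2]
  obtain ⟨b, hb⟩ : ∃ b, a i = b + 1 := ⟨a i - 1, by have := H.ha i; omega⟩
  change v i = t0 ^ a i * v i at h1
  rw [hb] at h1 ⊢
  rw [mul_zero, zero_add, Nat.pred_succ]
  change ((b + 1 : ℕ) : F) * (t0 ^ b * t1) * v i = _
  have h4 : t1 / t0 * (((b + 1 : ℕ) : F) * v i) =
      t1 / t0 * (((b + 1 : ℕ) : F) * (t0 ^ (b + 1) * v i)) := by rw [← h1]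
  rw [h4]
  field_simp
  ring

/-- the data from an injective assignment of equations to the weights larger than one -/
theorem exists_data (a : V → ℕ) (ha : ∀ i, 1 ≤ a i)
    (hcop : Pairwise fun i j => Nat.Coprime (a i) (a j)) (d : κ → ℕ) (hd : ∀ j, 1 ≤ d j)
    (f : κ → MvPolynomial V F) (hf : ∀ j, IsWeightedHomogeneous a (f j) (d j))
    (J : {i // 1 < a i} → κ) (hJ : Function.Injective J)
    (hX : ∀ i, eval (Pi.single i.1 1) (f (J i)) ≠ 0)
    (n : ℕ) (hn : n + Fintype.card κ + 1 = Fintype.card V) (K : ℕ) (hK : n + 2 ≤ K) :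
    ∃ e, e + ∑ i, a i = ∑ j, d j + K ∧ ∃ φ D, Data a f φ D e := by
  classical
  have hex : ∀ i, ∃ D : ℕ, 1 ≤ D ∧ (¬ 1 < a i → D = 1) ∧ ∀ h : 1 < a i,
      D * a i = d (J ⟨i, h⟩) ∧ coeff (Finsupp.single i D) (f (J ⟨i, h⟩)) ≠ 0 := by
    intro i
    by_cases h : 1 < a i
    · obtain ⟨D, hD, hc⟩ := coord (hf (J ⟨i, h⟩)) (hX ⟨i, h⟩)
      refine ⟨D, ?_, fun h' => absurd h h', fun _ => ⟨hD, hc⟩⟩
      rcases Nat.eq_zero_or_pos D with h0 | h0
      · rw [h0, zero_mul] at hD
        have := hd (J ⟨i, h⟩)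
        omega
      · exact h0
    · exact ⟨1, le_rfl, fun _ => rfl, fun h' => absurd h' h⟩
  choose D hD1 hD2 hD3 using hex
  have hsum1 : ∑ i, (D i * a i - 1) ≤ ∑ j, (d j - 1) := by
    have h1 : ∑ i, (D i * a i - 1) = ∑ i ∈ univ.filter (fun i => 1 < a i), (D i * a i - 1) := by
      symm
      refine sum_filter_of_ne fun i _ h => ?_
      by_contra h'
      apply h
      have := ha i
      rw [hD2 i h', one_mul]
      omega
    have h2 : ∑ i ∈ univ.filter (fun i => 1 < a i), (D i * a i - 1) =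
        ∑ i : {i // 1 < a i}, (D i.1 * a i.1 - 1) :=
      sum_subtype (univ.filter fun i => 1 < a i) (p := fun i => 1 < a i) (by simp)
        (fun i => D i * a i - 1)
    have h3 : ∑ i : {i // 1 < a i}, (D i.1 * a i.1 - 1) = ∑ i : {i // 1 < a i}, (d (J i) - 1) :=
      sum_congr rfl fun i _ => by rw [(hD3 i.1 i.2).1]
    have h4 : ∑ i : {i // 1 < a i}, (d (J i) - 1) = ∑ j ∈ univ.image J, (d j - 1) := by
      rw [sum_image]
      intro i _ l _ h
      exact hJ h
    rw [h1, h2, h3, h4]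
    exact sum_le_sum_of_subset (subset_univ _)
  have hsum2 : ∑ i, (D i * a i - 1) + Fintype.card V = ∑ i, D i * a i := by
    have h1 : Fintype.card V = ∑ _i : V, 1 := by simp
    rw [h1, ← sum_add_distrib]
    refine sum_congr rfl fun i _ => ?_
    have : 1 ≤ D i * a i := Nat.mul_pos (hD1 i) (ha i)
    omega
  have hsum3 : ∑ j, (d j - 1) + Fintype.card κ = ∑ j, d j := by
    have h1 : Fintype.card κ = ∑ _j : κ, 1 := by simp
    rw [h1, ← sum_add_distrib]
    refine sum_congr rfl fun j _ => ?_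
    have := hd j
    omega
  have hsum4 : ∑ i, (D i - 1) * a i + ∑ i, a i = ∑ i, D i * a i := by
    rw [← sum_add_distrib]
    refine sum_congr rfl fun i _ => ?_
    obtain ⟨k, hk⟩ : ∃ k, D i = k + 1 := ⟨D i - 1, by have := hD1 i; omega⟩
    rw [hk, Nat.add_sub_cancel, add_mul, one_mul]
  obtain ⟨e, he⟩ : ∃ e, e + ∑ i, a i = ∑ j, d j + K :=
    ⟨∑ j, d j + K - ∑ i, a i, by omega⟩
  refine ⟨e, he, fun i => if h : 1 < a i then f (J ⟨i, h⟩) else 0, D, ha, hcop, hD1, ?_, ?_, ?_, ?_⟩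
  · intro i hi
    rw [dif_pos hi, (hD3 i hi).1]
    exact hf _
  · intro i hi
    rw [dif_pos hi]
    exact (hD3 i hi).2
  · omega
  · intro i hi
    exact ⟨_, dif_pos hi⟩

end Pool.Agent.U479.VA
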