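import Pool.Agent.U479.VA.Rigid
import Pool.Agent.U479.FJ.Prep

set_option autoImplicit false

/-! A set of nonzero coordinates which determines the others. -/

namespace Pool.Agent.U479.VA

open Finset MvPolynomial Pool.Agent.U479.FJ

variable {V : Type} [Fintype V] [DecidableEq V] {F : Type} [Field F]

/-- the monomials of degree `e` in the coordinates of `T` determine a point of the torus of `T`, and
all large degrees are degrees of monomials in the coordinates of `T` -/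
def Good (a D : V → ℕ) (T : Finset V) (e : ℕ) : Prop :=
  (∀ i ∈ T, ∃ μ : V → ℕ, 1 ≤ μ i ∧ ∑ l ∈ T, μ l * a l = e) ∧
  (∀ (G : Type) [CommGroup G] (ρ : V → G) (C : G),
    (∀ μ : V → ℕ, ∑ l ∈ T, μ l * a l = e → ∏ l ∈ T, ρ l ^ μ l = C) →
      ∃ t : G, ∀ i ∈ T, ρ i = t ^ a i) ∧
  (∀ z : ℤ, ∑ i ∈ T, ((D i : ℤ) - 1) * a i ≤ z →
    ∃ μ : V → ℕ, ((∑ l ∈ T, μ l * a l : ℕ) : ℤ) = z)

theorem good_single (a D : V → ℕ) (i : V) (hD : 1 ≤ D i) (hi : a i = 1) (e : ℕ) (he : 1 ≤ e) :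
    Good a D {i} e := by
  refine ⟨?_, ?_, ?_⟩
  · intro l hl
    rw [mem_singleton] at hl
    subst hl
    exact ⟨fun _ => e, he, by simp [hi]⟩
  · intro G _ ρ C _
    refine ⟨ρ i, fun l hl => ?_⟩
    rw [mem_singleton] at hl
    subst hl
    rw [hi, pow_one]
  · intro z hz
    have h1 : (0 : ℤ) ≤ z := by
      rw [sum_singleton] at hz
      have h2 : (1 : ℤ) ≤ D i := by exact_mod_cast hD
      have h3 : 0 ≤ ((D i : ℤ) - 1) * a i := mul_nonneg (by linarith) (by positivity)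
      linarith
    refine ⟨fun _ => z.toNat, ?_⟩
    rw [sum_singleton, hi, mul_one, Int.toNat_of_nonneg h1]

theorem exists_good (a : V → ℕ) (ha : ∀ i, 1 ≤ a i)
    (hcop : Pairwise fun i j => Nat.Coprime (a i) (a j)) (φ : V → MvPolynomial V F) (D : V → ℕ)
    (hD : ∀ i, 1 ≤ D i) (hφ : ∀ i, 1 < a i → IsWeightedHomogeneous a (φ i) (D i * a i))
    (hcoef : ∀ i, 1 < a i → coeff (Finsupp.single i (D i)) (φ i) ≠ 0)
    (e : ℕ) (he : ∑ i, (D i - 1) * a i + 1 ≤ e)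
    (x : V → F) (hx : x ≠ 0) (hφx : ∀ i, 1 < a i → eval x (φ i) = 0) :
    ∃ T : Finset V, T.Nonempty ∧ (∀ i ∈ T, x i ≠ 0) ∧ Good a D T e := by
  classical
  obtain ⟨i₁, hi₁⟩ := Function.ne_iff.1 hx
  by_cases hone : ∃ i, x i ≠ 0 ∧ a i = 1
  · obtain ⟨i, hi, hai⟩ := hone
    refine ⟨{i}, singleton_nonempty i, fun l hl => ?_, good_single a D i (hD i) hai e (by omega)⟩
    rw [mem_singleton] at hl
    rw [hl]; exact hi
  push Not at hone
  have hbig : ∀ i, x i ≠ 0 → 1 < a i := fun i hi => by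
    have h1 := ha i
    have h2 := hone i hi
    omega
  -- the relations
  have hrelex : ∀ i, ∃ m : V →₀ ℕ, x i ≠ 0 →
      coeff m (φ i) ≠ 0 ∧ m ≠ Finsupp.single i (D i) ∧ ∀ l, m l ≠ 0 → x l ≠ 0 := by
    intro i
    by_cases hi : x i ≠ 0
    · obtain ⟨m, h1, h2, h3⟩ := other (hφx i (hbig i hi)) (hcoef i (hbig i hi)) hi
      exact ⟨m, fun _ => ⟨h1, h2, h3⟩⟩
    · exact ⟨0, fun h => absurd h hi⟩
  choose m hDm using hrelex
  obtain ⟨S, hS⟩ : ∃ S : Finset V, S = univ.filter fun i => x i ≠ 0 := ⟨_, rfl⟩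
  have hmemS : ∀ i, i ∈ S ↔ x i ≠ 0 := fun i => by rw [hS, mem_filter]; simp
  obtain ⟨r, hr⟩ : ∃ r : V → V → ℕ, r = fun i l => if x i ≠ 0 ∧ l ≠ i then m i l else 0 :=
    ⟨_, rfl⟩
  obtain ⟨c, hc⟩ : ∃ c : V → ℕ, c = fun i => D i - m i i := ⟨_, rfl⟩
  have hri : ∀ i l, x i ≠ 0 → l ≠ i → r i l = m i l := fun i l h1 h2 => by
    rw [hr]; exact if_pos ⟨h1, h2⟩
  have hrii : ∀ i, r i i = 0 := fun i => by rw [hr]; exact if_neg fun h => h.2 rfl
  have hrx : ∀ i l, x i ≠ 0 → r i l ≠ 0 → x l ≠ 0 := by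
    intro i l hi hrl
    have hli : l ≠ i := fun h => hrl (by rw [h]; exact hrii i)
    rw [hri i l hi hli] at hrl
    exact (hDm i hi).2.2 l hrl
  have hSc : Closed r S := fun i hi l hrl => (hmemS l).2 (hrx i l ((hmemS i).1 hi) hrl)
  obtain ⟨T, hTS, hTne, hTc, hTmin⟩ := exists_minimal_closed r S ⟨i₁, (hmemS i₁).2 hi₁⟩ hSc
  have hTx : ∀ i ∈ T, x i ≠ 0 := fun i hi => (hmemS i).1 (hTS hi)
  have hwt : ∀ i, x i ≠ 0 → m i i * a i + ∑ l ∈ univ.erase i, m i l * a l = D i * a i := by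
    intro i hi
    obtain ⟨h2, -, -⟩ := hDm i hi
    rw [← hφ i (hbig i hi) h2, weight_eq]
    exact add_sum_erase univ (fun l => m i l * a l) (mem_univ i)
  have hmD : ∀ i, x i ≠ 0 → m i i < D i := by
    intro i hi
    have h1 := hwt i hi
    have h2 : m i i * a i ≤ D i * a i := by omega
    have h3 : m i i ≤ D i := Nat.le_of_mul_le_mul_right h2 (by have := ha i; omega)
    refine lt_of_le_of_ne h3 fun h4 => ?_
    apply (hDm i hi).2.1
    rw [h4] at h1
    have h5 : ∑ l ∈ univ.erase i, m i l * a l = 0 := by omega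
    ext l
    by_cases hl : l = i
    · subst hl
      rw [Finsupp.single_eq_same, h4]
    · rw [Finsupp.single_apply, if_neg (Ne.symm hl)]
      have h6 := (sum_eq_zero_iff.1 h5) l (mem_erase.2 ⟨hl, mem_univ l⟩)
      rcases Nat.mul_eq_zero.1 h6 with h7 | h7
      · exact h7
      · have := ha l; omega
  have hc1 : ∀ i ∈ T, 1 ≤ c i := fun i hi => by
    have := hmD i (hTx i hi)
    rw [hc]
    show 1 ≤ D i - m i i
    omega
  have hcD : ∀ i, c i ≤ D i := fun i => by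
    rw [hc]; exact Nat.sub_le _ _
  have hrelT : ∀ i ∈ T, c i * a i = ∑ l ∈ T, r i l * a l := by
    intro i hi
    have hxi := hTx i hi
    have h1 := hwt i hxi
    have h2 : ∑ l ∈ T, r i l * a l = ∑ l, r i l * a l := by
      refine sum_subset (subset_univ T) fun l _ hl => ?_
      have : r i l = 0 := by
        by_contra h
        exact hl (hTc i hi l h)
      rw [this, zero_mul]
    have h3 : ∑ l, r i l * a l = ∑ l ∈ univ.erase i, m i l * a l := by
      rw [← add_sum_erase univ _ (mem_univ i), hrii i, zero_mul, zero_add]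
      exact sum_congr rfl fun l hl => by rw [hri i l hxi (mem_erase.1 hl).1]
    rw [h2, h3]
    have h4 : c i * a i = D i * a i - m i i * a i := by
      rw [hc]; exact Nat.sub_mul _ _ _
    rw [h4]
    omega
  have hsecond : ∀ i ∈ T, ∃ l ∈ T, l ≠ i := by
    intro i hi
    have h1 := hrelT i hi
    have h2 : 0 < c i * a i := Nat.mul_pos (hc1 i hi) (ha i)
    rw [h1] at h2
    obtain ⟨l, hl, hl'⟩ := exists_ne_zero_of_sum_ne_zero (Nat.pos_iff_ne_zero.1 h2)
    refine ⟨l, hl, fun h => hl' ?_⟩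
    rw [h, hrii i, zero_mul]
  have hT2 : 2 ≤ T.card := by
    obtain ⟨i, hi⟩ := hTne
    obtain ⟨l, hl, hli⟩ := hsecond i hi
    exact one_lt_card.2 ⟨i, hi, l, hl, Ne.symm hli⟩
  have hcT : ∑ i ∈ T, (c i - 1) * a i < e := by
    have h1 : ∑ i ∈ T, (c i - 1) * a i ≤ ∑ i ∈ T, (D i - 1) * a i :=
      sum_le_sum fun i _ => Nat.mul_le_mul_right _ (by have := hcD i; omega)
    have h2 : ∑ i ∈ T, (D i - 1) * a i ≤ ∑ i, (D i - 1) * a i :=
      sum_le_sum_of_subset (subset_univ T)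
    omega
  have hcastc : ((∑ i ∈ T, (c i - 1) * a i : ℕ) : ℤ) = ∑ i ∈ T, ((c i : ℤ) - 1) * a i := by
    rw [Nat.cast_sum]
    refine sum_congr rfl fun i hi => ?_
    rw [Nat.cast_mul, Nat.cast_sub (hc1 i hi)]
    simp
  refine ⟨T, hTne, hTx, ?_, ?_, ?_⟩
  · intro b hb
    obtain ⟨l₀, hl₀, hl₀b⟩ := hsecond b hb
    obtain ⟨y, hy⟩ := semigroup_int a c r T ha hTmin hTc hrelT hrii hb hl₀ hl₀b (hcop hl₀b)
      ((e : ℤ) - a b) (by
        have h1 : ((∑ i ∈ T, (c i - 1) * a i : ℕ) : ℤ) < e := by exact_mod_cast hcT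
        rw [hcastc, ← add_sum_erase T _ hb] at h1
        have h2 : (1 : ℤ) ≤ c b := by exact_mod_cast hc1 b hb
        have h3 : 0 ≤ ((c b : ℤ) - 1) * a b := mul_nonneg (by linarith) (by positivity)
        linarith)
    have hy' : ∑ i ∈ T, y i * a i + 1 * a b = e := by
      have : ((∑ i ∈ T, y i * a i : ℕ) : ℤ) + 1 * a b = e := by rw [hy]; ring
      exact_mod_cast this
    refine ⟨fun i => y i + if i = b then 1 else 0, by simp, ?_⟩
    rw [sum_add_single a T y hb, hy']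
  · intro G _ ρ C hρ
    exact rigid a c r T ha hcop hTmin hTc hrelT hrii hc1 hT2 e hcT ρ C hρ
  · intro z hz
    obtain ⟨b, hb⟩ := hTne
    obtain ⟨l₀, hl₀, hl₀b⟩ := hsecond b hb
    refine semigroup_int a c r T ha hTmin hTc hrelT hrii hb hl₀ hl₀b (hcop hl₀b) z ?_
    have h1 : ∑ i ∈ T, ((c i : ℤ) - 1) * a i ≤ ∑ i ∈ T, ((D i : ℤ) - 1) * a i :=
      sum_le_sum fun i _ => mul_le_mul_of_nonneg_right (by
        have : (c i : ℤ) ≤ D i := by exact_mod_cast hcD i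
        linarith) (by positivity)
    have h2 : (1 : ℤ) ≤ c b := by exact_mod_cast hc1 b hb
    have h3 : 0 ≤ ((c b : ℤ) - 1) * a b := mul_nonneg (by linarith) (by positivity)
    have h4 : (1 : ℤ) ≤ a b := by exact_mod_cast ha b
    rw [← add_sum_erase T _ hb] at h1
    linarith

end Pool.Agent.U479.VA
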