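import Pool.Agent.U479.FJ.Semi

set_option autoImplicit false

/-! Normal forms for an irreducible system of relations, in a commutative group. -/

namespace Pool.Agent.U479.VA

open Finset Pool.Agent.U479.FJ

variable {V : Type} [DecidableEq V]

theorem normal_form (a c : V → ℕ) (r : V → V → ℕ) (T : Finset V) (W : V → ℕ) {b : V}
    (hb : b ∈ T) (hW1 : ∀ i ∈ T, 1 ≤ W i ∧ W i ≤ W b)
    (hW2 : ∀ i ∈ T, i ≠ b → W i * (c i * a i) < ∑ l ∈ T, r i l * a l * W l)
    (hrel : ∀ i ∈ T, c i * a i = ∑ l ∈ T, r i l * a l) (hrii : ∀ i, r i i = 0)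
    {G : Type} [CommGroup G] (ρ : V → G)
    (hρ : ∀ i ∈ T, ρ i ^ c i = ∏ l ∈ T, ρ l ^ r i l) :
    ∀ (N : ℕ) (p : V → ℕ), ∑ i ∈ T.erase b, (W b - W i) * a i * p i = N →
      ∃ (m : V → ℕ) (h : ℕ), (∀ i ∈ T.erase b, m i < c i) ∧
        ∑ i ∈ T.erase b, p i * a i = ∑ i ∈ T.erase b, m i * a i + h * a b ∧
        ∏ i ∈ T.erase b, ρ i ^ p i = (∏ i ∈ T.erase b, ρ i ^ m i) * ρ b ^ h := by
  classical
  intro N
  induction N using Nat.strong_induction_on with
  | _ N ih =>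
  intro p hp
  by_cases hlt : ∀ i ∈ T.erase b, p i < c i
  · exact ⟨p, 0, hlt, by simp, by simp⟩
  push Not at hlt
  obtain ⟨i, hi, hcon⟩ := hlt
  obtain ⟨hib, hiT⟩ := mem_erase.1 hi
  obtain ⟨y', hy'⟩ : ∃ y' : V → ℕ, y' = fun l => (p l + r i l) - if l = i then c i else 0 := ⟨_, rfl⟩
  have hyl : ∀ l, y' l + (if l = i then c i else 0) = p l + r i l := by
    intro l
    rw [hy']
    show (p l + r i l) - (if l = i then c i else 0) + (if l = i then c i else 0) = p l + r i l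
    by_cases h : l = i
    · subst h
      rw [if_pos rfl]
      omega
    · rw [if_neg h]; omega
  have hsum : ∀ g : V → ℕ, ∑ l ∈ T.erase b, y' l * g l + c i * g i =
      ∑ l ∈ T.erase b, p l * g l + ∑ l ∈ T.erase b, r i l * g l := by
    intro g
    have h1 : c i * g i = ∑ l ∈ T.erase b, (if l = i then c i else 0) * g l := by
      rw [sum_eq_single i]
      · simp
      · intro l _ hl; simp [hl]
      · intro h; exact absurd hi h
    rw [h1, ← sum_add_distrib, ← sum_add_distrib]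
    refine sum_congr rfl fun l _ => ?_
    rw [← add_mul, ← add_mul, hyl]
  have hprod : (∏ l ∈ T.erase b, ρ l ^ y' l) * ρ i ^ c i =
      (∏ l ∈ T.erase b, ρ l ^ p l) * ∏ l ∈ T.erase b, ρ l ^ r i l := by
    have h1 : ρ i ^ c i = ∏ l ∈ T.erase b, ρ l ^ (if l = i then c i else 0) := by
      rw [prod_eq_single i]
      · simp
      · intro l _ hl; simp [hl]
      · intro h; exact absurd hi h
    rw [h1, ← prod_mul_distrib, ← prod_mul_distrib]
    refine prod_congr rfl fun l _ => ?_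
    rw [← pow_add, ← pow_add, hyl]
  have hsplit : ∀ g : V → ℕ, ∑ l ∈ T, g l = g b + ∑ l ∈ T.erase b, g l := fun g =>
    (add_sum_erase T g hb).symm
  have hr := hrel i hiT
  rw [hsplit] at hr
  have h1 := hsum a
  have h2 : ∑ l ∈ T.erase b, y' l * a l + r i b * a b = ∑ l ∈ T.erase b, p l * a l := by omega
  have hρi := hρ i hiT
  rw [← mul_prod_erase T _ hb] at hρi
  have h3 : (∏ l ∈ T.erase b, ρ l ^ y' l) * ρ b ^ r i b = ∏ l ∈ T.erase b, ρ l ^ p l := by
    have h4 : ((∏ l ∈ T.erase b, ρ l ^ y' l) * ρ b ^ r i b) * ∏ l ∈ T.erase b, ρ l ^ r i l =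
        (∏ l ∈ T.erase b, ρ l ^ p l) * ∏ l ∈ T.erase b, ρ l ^ r i l := by
      rw [← hprod, hρi, mul_assoc]
    exact mul_right_cancel h4
  -- potential
  have h5 := hsum (fun l => (W b - W l) * a l)
  have h6 := hW2 i hiT hib
  rw [hsplit] at h6
  have h7 : ∑ l ∈ T.erase b, r i l * ((W b - W l) * a l) + ∑ l ∈ T.erase b, r i l * a l * W l =
      W b * ∑ l ∈ T.erase b, r i l * a l := by
    rw [← sum_add_distrib, mul_sum]
    refine sum_congr rfl fun l hl => ?_
    have := (hW1 l (mem_erase.1 hl).2).2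
    obtain ⟨t, ht⟩ := Nat.exists_eq_add_of_le this
    rw [ht, Nat.add_sub_cancel_left]
    ring
  have h8 : c i * ((W b - W i) * a i) + W i * (c i * a i) = W b * (c i * a i) := by
    have := (hW1 i hiT).2
    obtain ⟨t, ht⟩ := Nat.exists_eq_add_of_le this
    rw [ht, Nat.add_sub_cancel_left]
    ring
  have h9 : ∑ l ∈ T.erase b, (W b - W l) * a l * p l = ∑ l ∈ T.erase b, p l * ((W b - W l) * a l) :=
    sum_congr rfl fun _ _ => mul_comm _ _
  have h10 : ∑ l ∈ T.erase b, (W b - W l) * a l * y' l =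
      ∑ l ∈ T.erase b, y' l * ((W b - W l) * a l) := sum_congr rfl fun _ _ => mul_comm _ _
  have h11 : W b * (c i * a i) = W b * (r i b * a b) + W b * ∑ l ∈ T.erase b, r i l * a l := by
    rw [hr, mul_add]
  have h12 : r i b * a b * W b = W b * (r i b * a b) := mul_comm _ _
  have h13 : ∑ l ∈ T.erase b, (W b - W l) * a l * y' l < N := by
    rw [← hp, h9, h10]
    omega
  obtain ⟨m, h, hm1, hm2, hm3⟩ := ih _ h13 y' rfl
  refine ⟨m, h + r i b, hm1, ?_, ?_⟩
  · rw [← h2, hm2, add_mul]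
    ring
  · rw [← h3, hm3, pow_add, mul_assoc]

/-- the Frobenius bound, for integers -/
theorem semigroup_int (a c : V → ℕ) (r : V → V → ℕ) (T : Finset V) (ha : ∀ i, 1 ≤ a i)
    (hmin : ∀ U ⊆ T, U.Nonempty → Closed r U → U = T) (hcl : Closed r T)
    (hrel : ∀ i ∈ T, c i * a i = ∑ l ∈ T, r i l * a l) (hrii : ∀ i, r i i = 0)
    {b : V} (hb : b ∈ T) {l₀ : V} (hl₀ : l₀ ∈ T) (hl₀b : l₀ ≠ b)
    (hcop : Nat.Coprime (a l₀) (a b)) (z : ℤ)
    (hz : ∑ i ∈ T.erase b, ((c i : ℤ) - 1) * a i < z + a b) :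
    ∃ y : V → ℕ, ((∑ i ∈ T, y i * a i : ℕ) : ℤ) = z := by
  classical
  obtain ⟨W, hW1, hW2⟩ := exists_potential a c r T ha hmin hcl hb
  obtain ⟨k, hk⟩ : ∃ k : ℕ, (a b : ℤ) ∣ z - (k * a l₀ : ℕ) := by
    haveI : NeZero (a b) := ⟨by have := ha b; omega⟩
    refine ⟨((((ZMod.unitOfCoprime (a l₀) hcop)⁻¹ : (ZMod (a b))ˣ) : ZMod (a b)) * z).val, ?_⟩
    rw [← ZMod.intCast_zmod_eq_zero_iff_dvd]
    push_cast
    rw [ZMod.natCast_zmod_val, ← ZMod.coe_unitOfCoprime (a l₀) hcop, mul_right_comm,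
      Units.inv_mul, one_mul, sub_self]
  obtain ⟨m, h, hm1, hm2, -⟩ := normal_form a c r T W hb hW1 hW2 hrel hrii
    (fun _ => (1 : Multiplicative ℤ)) (fun i _ => by simp) _
    (fun i => if i = l₀ then k else 0) rfl
  have h1 : ∑ i ∈ T.erase b, (if i = l₀ then k else 0) * a i = k * a l₀ := by
    rw [sum_eq_single l₀]
    · simp
    · intro i _ hi; simp [hi]
    · intro h; exact absurd (mem_erase.2 ⟨hl₀b, hl₀⟩) h
  rw [h1] at hm2
  obtain ⟨q, hq⟩ := hk
  have h2 : z = ((∑ i ∈ T.erase b, m i * a i : ℕ) : ℤ) + (h + q) * a b := by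
    have : z = (k * a l₀ : ℕ) + a b * q := by linarith
    rw [this, hm2]
    push_cast
    ring
  have h3 : ((∑ i ∈ T.erase b, m i * a i : ℕ) : ℤ) ≤ ∑ i ∈ T.erase b, ((c i : ℤ) - 1) * a i := by
    push_cast
    refine sum_le_sum fun i hi => mul_le_mul_of_nonneg_right ?_ (by positivity)
    have := hm1 i hi
    have : (m i : ℤ) < c i := by exact_mod_cast this
    linarith
  have h4 : (0 : ℤ) < a b := by have := ha b; exact_mod_cast this
  have h5 : -1 < (h : ℤ) + q := by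
    by_contra hcon
    push Not at hcon
    have : ((h : ℤ) + q) * a b ≤ (-1) * a b := mul_le_mul_of_nonneg_right hcon h4.le
    linarith
  obtain ⟨t, ht⟩ : ∃ t : ℕ, (t : ℤ) = h + q := ⟨((h : ℤ) + q).toNat, Int.toNat_of_nonneg (by omega)⟩
  refine ⟨fun i => if i = b then t else m i, ?_⟩
  rw [← add_sum_erase T _ hb]
  beta_reduce
  have h6 : ∑ i ∈ T.erase b, (if i = b then t else m i) * a i = ∑ i ∈ T.erase b, m i * a i :=
    sum_congr rfl fun i hi => by rw [if_neg (mem_erase.1 hi).1]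
  rw [h6, if_pos rfl, h2, ← ht]
  push_cast
  ring

end Pool.Agent.U479.VA
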