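import Pool.Agent.U479.VA.Good

set_option autoImplicit false

/-! The forms of degree `e` determine a point of `X` with values in an algebra. -/

namespace Pool.Agent.U479.VA

open Finset MvPolynomial Pool.Agent.U479.FJ

variable {V : Type} [Fintype V] [DecidableEq V] {F : Type} [Field F]
variable {B : Type} [CommRing B] [Algebra F B]

theorem aeval_scaled {a : V → ℕ} {n : ℕ} {x : V → F} {y : V → B} {t : B}
    (ψ : MvPolynomial V F)
    (h : ∀ m, coeff m ψ ≠ 0 → (∑ i, m i * a i = n ∧
      ∀ l, m l ≠ 0 → y l = t ^ a l * algebraMap F B (x l))) :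
    aeval y ψ = t ^ n * algebraMap F B (eval x ψ) := by
  classical
  rw [aeval_def, eval₂_eq', eval_eq', map_sum, mul_sum]
  refine sum_congr rfl fun m hm => ?_
  obtain ⟨h1, h2⟩ := h m (mem_support_iff.1 hm)
  rw [map_mul, map_prod, ← h1, mul_left_comm, ← prod_pow_eq_pow_sum, ← prod_mul_distrib]
  congr 1
  refine prod_congr rfl fun l _ => ?_
  rw [map_pow]
  by_cases hl : m l = 0
  · simp [hl]
  · rw [h2 l hl, mul_pow, ← pow_mul, mul_comm (a l)]

theorem core (a : V → ℕ) (ha : ∀ i, 1 ≤ a i)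
    (hcop : Pairwise fun i j => Nat.Coprime (a i) (a j)) (φ : V → MvPolynomial V F) (D : V → ℕ)
    (hD : ∀ i, 1 ≤ D i) (hφ : ∀ i, 1 < a i → IsWeightedHomogeneous a (φ i) (D i * a i))
    (hcoef : ∀ i, 1 < a i → coeff (Finsupp.single i (D i)) (φ i) ≠ 0)
    (e : ℕ) (he : ∑ i, (D i - 1) * a i + 1 ≤ e)
    (x : V → F) (hx : x ≠ 0) (hφx : ∀ i, 1 < a i → eval x (φ i) = 0)
    (y : V → B) (hφy : ∀ i, 1 < a i → aeval y (φ i) = 0) (C : Bˣ)
    (hC : ∀ s : MvPolynomial V F, IsWeightedHomogeneous a s e →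
      aeval y s = (C : B) * algebraMap F B (eval x s)) :
    ∃ t : Bˣ, ∀ i, y i = (t : B) ^ a i * algebraMap F B (x i) := by
  classical
  obtain ⟨T, hTne, hTx, hG1, hG2, hG3⟩ := exists_good a ha hcop φ D hD hφ hcoef e he x hx hφx
  -- monomials
  have hmon : ∀ μ : V → ℕ, ∑ i, μ i * a i = e →
      ∏ i, y i ^ μ i = (C : B) * algebraMap F B (∏ i, x i ^ μ i) := by
    intro μ hμ
    have h1 := hC (monomial (Finsupp.equivFunOnFinite.symm μ) 1)
      (isWeightedHomogeneous_monomial _ _ _ (by rw [weight_eq, ← hμ]; rfl))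
    rw [eval_monomial, one_mul, Finsupp.prod_fintype _ _ (fun _ => pow_zero _), aeval_monomial,
      map_one, one_mul, Finsupp.prod_fintype _ _ (fun _ => pow_zero _)] at h1
    exact h1
  have hprodT : ∀ {M : Type} [CommMonoid M] (g : V → M) (μ : V → ℕ),
      ∏ i, g i ^ (if i ∈ T then μ i else 0) = ∏ i ∈ T, g i ^ μ i := by
    intro M _ g μ
    rw [← prod_subset (subset_univ T)]
    · exact prod_congr rfl fun i hi => by rw [if_pos hi]
    · intro i _ hi
      rw [if_neg hi, pow_zero]
  have hsumT : ∀ (μ : V → ℕ), ∑ i, (if i ∈ T then μ i else 0) * a i = ∑ i ∈ T, μ i * a i := by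
    intro μ
    rw [← sum_subset (subset_univ T)]
    · exact sum_congr rfl fun i hi => by rw [if_pos hi]
    · intro i _ hi
      rw [if_neg hi, zero_mul]
  have hmonT : ∀ μ : V → ℕ, ∑ i ∈ T, μ i * a i = e →
      ∏ i ∈ T, y i ^ μ i = (C : B) * algebraMap F B (∏ i ∈ T, x i ^ μ i) := by
    intro μ hμ
    have h1 := hmon (fun i => if i ∈ T then μ i else 0) (by rw [hsumT, hμ])
    rw [hprodT, hprodT] at h1
    exact h1
  have hxu : ∀ z : F, z ≠ 0 → IsUnit (algebraMap F B z) := fun z hz =>
    (IsUnit.mk0 z hz).map (algebraMap F B)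
  have hpx : ∀ μ : V → ℕ, ∏ i ∈ T, x i ^ μ i ≠ 0 := fun μ =>
    prod_ne_zero_iff.2 fun i hi => pow_ne_zero _ (hTx i hi)
  -- units
  have hyu : ∀ i ∈ T, IsUnit (y i) := by
    intro i hi
    obtain ⟨μ, h1, h2⟩ := hG1 i hi
    have h3 := hmonT μ h2
    have h4 : IsUnit (∏ i ∈ T, y i ^ μ i) := by
      rw [h3]
      exact C.isUnit.mul (hxu _ (hpx μ))
    refine isUnit_of_dvd_unit ?_ h4
    exact (dvd_pow_self (y i) (by omega)).trans (dvd_prod_of_mem (fun i => y i ^ μ i) hi)
  have hex : ∀ i, ∃ u : Bˣ, i ∈ T → y i = (u : B) * algebraMap F B (x i) := by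
    intro i
    by_cases hi : i ∈ T
    · obtain ⟨u, hu⟩ := hyu i hi
      obtain ⟨w, hw⟩ := hxu _ (hTx i hi)
      refine ⟨u * w⁻¹, fun _ => ?_⟩
      rw [← hu, ← hw, Units.val_mul, mul_assoc, Units.inv_mul, mul_one]
    · exact ⟨1, fun h => absurd h hi⟩
  choose ρ hρ using hex
  have hρC : ∀ μ : V → ℕ, ∑ i ∈ T, μ i * a i = e → ∏ i ∈ T, ρ i ^ μ i = C := by
    intro μ hμ
    have h1 := hmonT μ hμ
    have h2 : ∏ i ∈ T, y i ^ μ i =
        ((∏ i ∈ T, ρ i ^ μ i : Bˣ) : B) * algebraMap F B (∏ i ∈ T, x i ^ μ i) := by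
      rw [Units.coe_prod, map_prod, ← prod_mul_distrib]
      refine prod_congr rfl fun i hi => ?_
      rw [hρ i hi, mul_pow, map_pow, Units.val_pow_eq_pow_val]
    rw [h2] at h1
    exact Units.ext ((hxu _ (hpx μ)).mul_right_cancel h1)
  obtain ⟨t, ht⟩ := hG2 Bˣ ρ C hρC
  have hyT : ∀ i ∈ T, y i = (t : B) ^ a i * algebraMap F B (x i) := by
    intro i hi
    rw [hρ i hi, ht i hi, Units.val_pow_eq_pow_val]
  have htC : t ^ e = C := by
    obtain ⟨i, hi⟩ := hTne
    obtain ⟨μ, -, h2⟩ := hG1 i hi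
    rw [← hρC μ h2, ← h2, ← prod_pow_eq_pow_sum]
    refine prod_congr rfl fun l hl => ?_
    rw [ht l hl, ← pow_mul, mul_comm]
  refine ⟨t, ?_⟩
  -- coordinates which occur linearly in a monomial
  have hlin : ∀ l, l ∉ T → (∃ μ : V → ℕ, ((∑ i ∈ T, μ i * a i : ℕ) : ℤ) = (e : ℤ) - a l) →
      y l = (t : B) ^ a l * algebraMap F B (x l) := by
    rintro l hl ⟨μ, hμ⟩
    have hμ' : ∑ i ∈ T, μ i * a i + a l = e := by
      have : ((∑ i ∈ T, μ i * a i : ℕ) : ℤ) + a l = e := by rw [hμ]; ring
      exact_mod_cast this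
    have hprod : ∀ {M : Type} [CommMonoid M] (g : V → M),
        ∏ i, g i ^ ((if i ∈ T then μ i else 0) + if i = l then 1 else 0) =
          (∏ i ∈ T, g i ^ μ i) * g l := by
      intro M _ g
      rw [prod_add_single g univ (fun i => if i ∈ T then μ i else 0) (mem_univ l), hprodT, pow_one]
    have h1 := hmon (fun i => (if i ∈ T then μ i else 0) + if i = l then 1 else 0) (by
      rw [sum_add_single a univ (fun i => if i ∈ T then μ i else 0) (mem_univ l), hsumT, one_mul,
        hμ'])
    rw [hprod, hprod] at h1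
    have h2 : ∏ i ∈ T, y i ^ μ i =
        (t : B) ^ (∑ i ∈ T, μ i * a i) * algebraMap F B (∏ i ∈ T, x i ^ μ i) := by
      rw [map_prod, ← prod_pow_eq_pow_sum, ← prod_mul_distrib]
      refine prod_congr rfl fun i hi => ?_
      rw [hyT i hi, mul_pow, map_pow, ← pow_mul, mul_comm (a i)]
    rw [h2, ← htC, Units.val_pow_eq_pow_val, ← hμ', pow_add, map_mul] at h1
    have h3 : IsUnit ((t : B) ^ (∑ i ∈ T, μ i * a i) * algebraMap F B (∏ i ∈ T, x i ^ μ i)) :=
      (t.isUnit.pow _).mul (hxu _ (hpx μ))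
    refine h3.mul_left_cancel ?_
    rw [h1]
    ring
  have hsubT : ∀ l, l ∉ T → ∑ i ∈ T, (D i - 1) * a i + (D l - 1) * a l + 1 ≤ e := by
    intro l hl
    have h1 : ∑ i ∈ insert l T, (D i - 1) * a i ≤ ∑ i, (D i - 1) * a i :=
      sum_le_sum_of_subset (subset_univ _)
    rw [sum_insert hl] at h1
    omega
  have hcastT : ∑ i ∈ T, ((D i : ℤ) - 1) * a i = ((∑ i ∈ T, (D i - 1) * a i : ℕ) : ℤ) := by
    rw [Nat.cast_sum]
    refine sum_congr rfl fun i _ => ?_
    rw [Nat.cast_mul, Nat.cast_sub (hD i)]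
    simp
  have key : ∀ (N : ℕ) (l : V), a l = N → y l = (t : B) ^ a l * algebraMap F B (x l) := by
    intro N
    induction N using Nat.strong_induction_on with
    | _ N ih =>
    intro l hlN
    by_cases hlT : l ∈ T
    · exact hyT l hlT
    have hsl := hsubT l hlT
    by_cases hal : a l = 1
    · refine hlin l hlT (hG3 _ ?_)
      rw [hcastT, hal]
      have : ∑ i ∈ T, (D i - 1) * a i + 1 ≤ e := by omega
      have : ((∑ i ∈ T, (D i - 1) * a i : ℕ) : ℤ) + 1 ≤ e := by exact_mod_cast this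
      push_cast at this ⊢
      linarith
    have hal' : 1 < a l := by have := ha l; omega
    by_cases hDl : D l = 1
    · -- a linear equation
      have hhom := hφ l hal'
      have hγ := hcoef l hal'
      have hex := hφx l hal'
      have hey := hφy l hal'
      rw [hDl, one_mul] at hhom
      rw [hDl] at hγ
      obtain ⟨γ, hγ'⟩ : ∃ γ, γ = coeff (Finsupp.single l 1) (φ l) := ⟨_, rfl⟩
      rw [← hγ'] at hγ
      obtain ⟨ψ, hψ⟩ : ∃ ψ, ψ = φ l - MvPolynomial.C γ * X l := ⟨_, rfl⟩
      have hφl : φ l = MvPolynomial.C γ * X l + ψ := by rw [hψ]; ring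
      have hcm : ∀ m, coeff m ψ ≠ 0 → m ≠ Finsupp.single l 1 ∧ coeff m (φ l) ≠ 0 := by
        intro m hm
        have h1 : m ≠ Finsupp.single l 1 := by
          intro h
          apply hm
          rw [hψ, h, coeff_sub, coeff_C_mul, coeff_X', if_pos rfl, ← hγ', mul_one, sub_self]
        refine ⟨h1, ?_⟩
        rw [hψ, coeff_sub, coeff_C_mul, coeff_X', if_neg (fun h => h1 h.symm), mul_zero, sub_zero]
          at hm
        exact hm
      have hsc : aeval y ψ = (t : B) ^ a l * algebraMap F B (eval x ψ) := by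
        refine aeval_scaled (a := a) ψ fun m hm => ?_
        obtain ⟨h1, h2⟩ := hcm m hm
        have h3 : ∑ i, m i * a i = a l := by
          rw [← weight_eq]; exact hhom h2
        refine ⟨h3, fun i hi => ?_⟩
        have h4 : m i * a i ≤ a l := by
          rw [← h3]
          exact single_le_sum (f := fun i => m i * a i) (fun _ _ => Nat.zero_le _) (mem_univ i)
        have h5 : 1 ≤ m i := Nat.one_le_iff_ne_zero.2 hi
        have h6 : a i ≤ a l := (Nat.le_mul_of_pos_left _ h5).trans h4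
        have h7 : i ≠ l := by
          intro h
          subst h
          apply h1
          have h8 : m i = 1 := by
            by_contra h9
            have : 2 * a i ≤ m i * a i := Nat.mul_le_mul_right _ (by omega)
            omega
          rw [← add_sum_erase univ _ (mem_univ i), h8, one_mul] at h3
          have h10 : ∑ l ∈ univ.erase i, m l * a l = 0 := by omega
          ext k
          by_cases hk : k = i
          · subst hk
            rw [Finsupp.single_eq_same, h8]
          · rw [Finsupp.single_apply, if_neg (Ne.symm hk)]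
            rcases Nat.mul_eq_zero.1 ((sum_eq_zero_iff.1 h10) k
              (mem_erase.2 ⟨hk, mem_univ k⟩)) with h11 | h11
            · exact h11
            · have := ha k; omega
        have h8 : a i ≠ a l := by
          intro h
          have h9 : Nat.Coprime (a i) (a l) := hcop h7
          rw [h, Nat.coprime_self] at h9
          omega
        exact ih (a i) (by omega) i rfl
      rw [hφl, map_add, map_mul, aeval_C, aeval_X, hsc] at hey
      rw [hφl, map_add, map_mul, eval_C, eval_X] at hex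
      have h1 : eval x ψ = -(γ * x l) := by linear_combination hex
      rw [h1, map_neg, map_mul] at hey
      refine (hxu γ hγ).mul_left_cancel ?_
      linear_combination hey
    · refine hlin l hlT (hG3 _ ?_)
      rw [hcastT]
      have h1 := hD l
      obtain ⟨k, hk⟩ : ∃ k, D l = k + 2 := ⟨D l - 2, by omega⟩
      rw [hk] at hsl
      have h2 : (k + 2 - 1) * a l = k * a l + a l := by
        rw [show k + 2 - 1 = k + 1 by omega, add_mul, one_mul]
      have h3 : ∑ i ∈ T, (D i - 1) * a i + a l ≤ e := by omega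
      have h4 : ((∑ i ∈ T, (D i - 1) * a i : ℕ) : ℤ) + a l ≤ e := by exact_mod_cast h3
      linarith
  exact fun i => key _ i rfl

end Pool.Agent.U479.VA
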