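import Pool.Agent.U479.VA.NF

set_option autoImplicit false

/-! The values of the monomials of degree `e` determine the point of the torus. -/

namespace Pool.Agent.U479.VA

open Finset Pool.Agent.U479.FJ

variable {V : Type} [DecidableEq V]

theorem prod_add_single {M : Type} [CommMonoid M] (ρ : V → M) (T : Finset V) (y : V → ℕ) {b : V}
    (hb : b ∈ T) (k : ℕ) :
    ∏ i ∈ T, ρ i ^ (y i + if i = b then k else 0) = (∏ i ∈ T, ρ i ^ y i) * ρ b ^ k := by
  have h1 : ρ b ^ k = ∏ i ∈ T, ρ i ^ (if i = b then k else 0) := by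
    rw [prod_eq_single b]
    · simp
    · intro l _ hl; simp [hl]
    · intro h; exact absurd hb h
  rw [h1, ← prod_mul_distrib]
  exact prod_congr rfl fun l _ => pow_add _ _ _

theorem sum_add_single (g : V → ℕ) (T : Finset V) (y : V → ℕ) {b : V}
    (hb : b ∈ T) (k : ℕ) :
    ∑ i ∈ T, (y i + if i = b then k else 0) * g i = ∑ i ∈ T, y i * g i + k * g b := by
  have h1 : k * g b = ∑ i ∈ T, (if i = b then k else 0) * g i := by
    rw [sum_eq_single b]
    · simp
    · intro l _ hl; simp [hl]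
    · intro h; exact absurd hb h
  rw [h1, ← sum_add_distrib]
  exact sum_congr rfl fun l _ => add_mul _ _ _

theorem rigid (a c : V → ℕ) (r : V → V → ℕ) (T : Finset V) (ha : ∀ i, 1 ≤ a i)
    (hcop : Pairwise fun i j => Nat.Coprime (a i) (a j))
    (hmin : ∀ U ⊆ T, U.Nonempty → Closed r U → U = T) (hcl : Closed r T)
    (hrel : ∀ i ∈ T, c i * a i = ∑ l ∈ T, r i l * a l) (hrii : ∀ i, r i i = 0)
    (hc : ∀ i ∈ T, 1 ≤ c i) (hT : 2 ≤ T.card) (e : ℕ) (he : ∑ i ∈ T, (c i - 1) * a i < e)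
    {G : Type} [CommGroup G] (ρ : V → G) (C : G)
    (hρ : ∀ y : V → ℕ, ∑ i ∈ T, y i * a i = e → ∏ i ∈ T, ρ i ^ y i = C) :
    ∃ t : G, ∀ i ∈ T, ρ i = t ^ a i := by
  classical
  have hsecond : ∀ b ∈ T, ∃ l ∈ T, l ≠ b := by
    intro b _
    obtain ⟨x, hx, y, hy, hxy⟩ := one_lt_card.1 (by omega : 1 < T.card)
    by_cases h : x = b
    · exact ⟨y, hy, fun h' => hxy (by rw [h, h'])⟩
    · exact ⟨x, hx, h⟩
  have heZ : ∑ i ∈ T, ((c i : ℤ) - 1) * a i < e := by
    have h2 : ((∑ i ∈ T, (c i - 1) * a i : ℕ) : ℤ) = ∑ i ∈ T, ((c i : ℤ) - 1) * a i := by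
      rw [Nat.cast_sum]
      refine sum_congr rfl fun i hi => ?_
      rw [Nat.cast_mul, Nat.cast_sub (hc i hi)]
      simp
    rw [← h2]
    exact_mod_cast he
  -- the relations hold
  have hrelρ : ∀ b ∈ T, ρ b ^ c b = ∏ l ∈ T, ρ l ^ r b l := by
    intro b hb
    obtain ⟨l₀, hl₀, hl₀b⟩ := hsecond b hb
    obtain ⟨y, hy⟩ := semigroup_int a c r T ha hmin hcl hrel hrii hb hl₀ hl₀b (hcop hl₀b)
      ((e : ℤ) - c b * a b) (by
        rw [← add_sum_erase T _ hb] at heZ
        linarith)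
    have hy' : ∑ i ∈ T, y i * a i + c b * a b = e := by
      have : ((∑ i ∈ T, y i * a i : ℕ) : ℤ) + c b * a b = e := by rw [hy]; ring
      exact_mod_cast this
    have h1 := hρ (fun i => y i + if i = b then c b else 0) (by
      rw [sum_add_single a T y hb, hy'])
    have h2 := hρ (fun i => y i + r b i) (by
      have : ∑ i ∈ T, (y i + r b i) * a i = ∑ i ∈ T, y i * a i + ∑ i ∈ T, r b i * a i := by
        rw [← sum_add_distrib]
        exact sum_congr rfl fun l _ => add_mul _ _ _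
      rw [this, ← hrel b hb, hy'])
    rw [prod_add_single ρ T y hb] at h1
    have h3 : ∏ i ∈ T, ρ i ^ (y i + r b i) = (∏ i ∈ T, ρ i ^ y i) * ∏ i ∈ T, ρ i ^ r b i := by
      rw [← prod_mul_distrib]
      exact prod_congr rfl fun l _ => pow_add _ _ _
    beta_reduce at h2
    rw [h3, ← h1] at h2
    exact (mul_left_cancel h2).symm
  -- pairs
  have hpair : ∀ i ∈ T, ∀ k ∈ T, i ≠ k → ρ i ^ a k = ρ k ^ a i := by
    intro i hi k hk hik
    have hik' : i ∈ T.erase k := mem_erase.2 ⟨hik, hi⟩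
    obtain ⟨W, hW1, hW2⟩ := exists_potential a c r T ha hmin hcl hk
    obtain ⟨y, hy⟩ := semigroup_int a c r T ha hmin hcl hrel hrii hk hi hik (hcop hik)
      (e : ℤ) (by
        rw [← add_sum_erase T _ hk] at heZ
        have h1 := hc k hk
        have h2 : (1 : ℤ) ≤ c k := by exact_mod_cast h1
        have h3 : 0 ≤ ((c k : ℤ) - 1) * a k := mul_nonneg (by linarith) (by positivity)
        have h4 : (1 : ℤ) ≤ a k := by exact_mod_cast ha k
        linarith)
    have hy' : ∑ i ∈ T, y i * a i = e := by exact_mod_cast hy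
    obtain ⟨m, h, hm1, hm2, hm3⟩ := normal_form a c r T W hk hW1 hW2 hrel hrii ρ hrelρ _
      (fun l => y l + if l = i then a k else 0) rfl
    rw [sum_add_single a _ y hik'] at hm2
    rw [prod_add_single ρ _ y hik'] at hm3
    have h1 : y k * a k + ∑ l ∈ T.erase k, y l * a l = e := by
      rw [← hy']; exact add_sum_erase T (fun l => y l * a l) hk
    have h2 : ∑ l ∈ T.erase k, m l * a l < e := by
      refine lt_of_le_of_lt ?_ he
      calc ∑ l ∈ T.erase k, m l * a l ≤ ∑ l ∈ T.erase k, (c l - 1) * a l :=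
            sum_le_sum fun l hl => Nat.mul_le_mul_right _ (by have := hm1 l hl; omega)
        _ ≤ ∑ l ∈ T, (c l - 1) * a l := sum_le_sum_of_subset (erase_subset _ _)
    have h3 : a i * a k < (h + y k) * a k := by
      have h5 : (h + y k) * a k = h * a k + y k * a k := add_mul _ _ _
      have h6 : a k * a i = a i * a k := mul_comm _ _
      omega
    have h4 : a i < h + y k := lt_of_mul_lt_mul_right h3 (Nat.zero_le _)
    obtain ⟨s, hs⟩ : ∃ s, h + y k = s + a i := ⟨h + y k - a i, by omega⟩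
    have h7 := hρ (fun l => if l = k then s else m l) (by
      rw [← add_sum_erase T _ hk]
      have h8 : ∑ l ∈ T.erase k, (if l = k then s else m l) * a l = ∑ l ∈ T.erase k, m l * a l :=
        sum_congr rfl fun l hl => by rw [if_neg (mem_erase.1 hl).1]
      rw [h8, if_pos rfl]
      have h5 : (h + y k) * a k = h * a k + y k * a k := add_mul _ _ _
      have h6 : a k * a i = a i * a k := mul_comm _ _
      have h9 : (s + a i) * a k = s * a k + a i * a k := add_mul _ _ _
      rw [hs] at h5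
      omega)
    rw [← mul_prod_erase T _ hk] at h7
    have h8 : ∏ l ∈ T.erase k, ρ l ^ (if l = k then s else m l) = ∏ l ∈ T.erase k, ρ l ^ m l :=
      prod_congr rfl fun l hl => by rw [if_neg (mem_erase.1 hl).1]
    rw [h8, if_pos rfl] at h7
    have h9 := hρ y hy'
    rw [← mul_prod_erase T _ hk] at h9
    -- `C * ρ k ^ a i = C * ρ i ^ a k`
    have h10 : C * ρ k ^ a i = C * ρ i ^ a k := by
      calc C * ρ k ^ a i = (∏ l ∈ T.erase k, ρ l ^ m l) * ρ k ^ (s + a i) := by
            rw [← h7, pow_add]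
            simp only [mul_assoc, mul_left_comm, mul_comm]
        _ = (∏ l ∈ T.erase k, ρ l ^ m l) * ρ k ^ h * ρ k ^ y k := by
            rw [← hs, pow_add, mul_assoc]
        _ = (∏ l ∈ T.erase k, ρ l ^ y l) * ρ i ^ a k * ρ k ^ y k := by rw [hm3]
        _ = C * ρ i ^ a k := by
            rw [← h9]
            simp only [mul_assoc, mul_left_comm, mul_comm]
    exact (mul_left_cancel h10).symm
  -- conclusion
  obtain ⟨p, hp, q, hq, hpq⟩ := one_lt_card.1 (by omega : 1 < T.card)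
  have hco := hcop hpq
  obtain ⟨u, v, huv⟩ : ∃ u v : ℤ, (a p : ℤ) * u + a q * v = 1 := by
    have h1 := Nat.gcd_eq_gcd_ab (a p) (a q)
    rw [Nat.Coprime.gcd_eq_one hco] at h1
    exact ⟨_, _, by exact_mod_cast h1.symm⟩
  have hp' : ∀ i ∈ T, ρ i ^ a p = ρ p ^ a i := by
    intro i hi
    by_cases h : i = p
    · rw [h]
    · exact hpair i hi p hp h
  have hq' : ∀ i ∈ T, ρ i ^ a q = ρ q ^ a i := by
    intro i hi
    by_cases h : i = q
    · rw [h]
    · exact hpair i hi q hq h
  refine ⟨ρ p ^ u * ρ q ^ v, fun i hi => ?_⟩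
  rw [mul_pow, ← zpow_natCast, ← zpow_natCast, ← zpow_mul, ← zpow_mul, mul_comm u, mul_comm v,
    zpow_mul, zpow_mul, zpow_natCast, zpow_natCast, ← hp' i hi, ← hq' i hi, ← zpow_natCast,
    ← zpow_natCast, ← zpow_mul, ← zpow_mul, ← zpow_add, huv, zpow_one]

end Pool.Agent.U479.VA
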